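import Mathlib

/-!
# Vaguely null measures whose Fourier transforms converge to a nonzero measure

In every dimension `d ≥ 1` there are Fourier transformable measures `ν_n → 0` (vaguely) whose
Fourier transforms converge vaguely to the Dirac mass at `0`.
-/

set_option autoImplicit false

namespace Pool.Agent.Results.MP_831e37_an.VaguelyNull

open MeasureTheory Filter Complex
open scoped ENNReal Topology

/-- Euclidean space `ℝ^d`. -/
abbrev E (d : ℕ) : Type := EuclideanSpace ℝ (Fin d)

/-- A complex Radon measure on `ℝ^d`, written as `density · base` with `base` a locally finite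
positive measure and `density` a complex function locally integrable for `base`. (By polar
decomposition every complex Radon measure is of this form, and each such expression defines one;
its total variation measure is `|density| · base`.) -/
structure RadonMeasure (d : ℕ) where
  /-- the positive measure -/
  base : Measure (E d)
  locallyFinite : IsLocallyFiniteMeasure base
  /-- the complex density -/
  density : E d → ℂ
  locallyIntegrable : LocallyIntegrable density base

/-- The total variation measure `|μ|`. -/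
noncomputable def RadonMeasure.totalVariation {d : ℕ} (μ : RadonMeasure d) : Measure (E d) :=
  μ.base.withDensity fun x => ‖μ.density x‖ₑ

/-- The integral `μ(f)`. -/
noncomputable def RadonMeasure.integral {d : ℕ} (μ : RadonMeasure d) (f : E d → ℂ) : ℂ :=
  ∫ x, f x * μ.density x ∂μ.base

/-- `C_c(ℝ^d)`. -/
def IsCc {d : ℕ} (f : E d → ℂ) : Prop := Continuous f ∧ HasCompactSupport f

/-- Vague convergence of a sequence of measures. -/
def VagueTendsto {d : ℕ} (ν : ℕ → RadonMeasure d) (μ : RadonMeasure d) : Prop :=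
  ∀ f : E d → ℂ, IsCc f → Tendsto (fun n => (ν n).integral f) atTop (𝓝 (μ.integral f))

/-- The convolution `(f * h)(x) = ∫ f(t) h(x - t) dt`. -/
noncomputable def conv {d : ℕ} (f h : E d → ℂ) (x : E d) : ℂ := ∫ t, f t * h (x - t)

/-- `K_2(ℝ^d)`, the span of the convolutions `f * h`, `f, h ∈ C_c(ℝ^d)`. -/
noncomputable def K2 (d : ℕ) : Submodule ℂ (E d → ℂ) :=
  Submodule.span ℂ {g | ∃ f h : E d → ℂ, IsCc f ∧ IsCc h ∧ g = conv f h}

/-- `ǧ(x) = ∫ g(t) exp(2πi x·t) dt`. -/
noncomputable def check {d : ℕ} (g : E d → ℂ) (x : E d) : ℂ :=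
  ∫ t, g t * cexp (2 * Real.pi * I * (inner ℝ x t : ℝ))

/-- `μhat` is the Fourier transform of `μ`: for every `g ∈ K_2(ℝ^d)`, `ǧ ∈ L¹(|μhat|)` and
`μ(g) = μhat(ǧ)`. -/
def IsFourierTransform {d : ℕ} (μ μhat : RadonMeasure d) : Prop :=
  ∀ g ∈ K2 d, Integrable (check g) μhat.totalVariation ∧ μ.integral g = μhat.integral (check g)

/-- The zero measure. -/
noncomputable def zeroMeasure (d : ℕ) : RadonMeasure d where
  base := 0
  locallyFinite := inferInstance
  density := 0
  locallyIntegrable := locallyIntegrable_zero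

/-- The Dirac mass at the origin. -/
noncomputable def diracMeasure (d : ℕ) : RadonMeasure d where
  base := Measure.dirac 0
  locallyFinite := inferInstance
  density := fun _ => 1
  locallyIntegrable := locallyIntegrable_const 1


/-! ### The construction -/

section construction

variable {d : ℕ} (hd : 1 ≤ d)

/-- the first coordinate index -/
def i0 (hd : 1 ≤ d) : Fin d := ⟨0, hd⟩

/-- `z(x) = exp(2πi ε x_0)` -/
noncomputable def z (ε : ℝ) (x : E d) : ℂ := cexp (2 * Real.pi * I * ((ε * x (i0 hd) : ℝ) : ℂ))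

theorem z_cont (ε : ℝ) : Continuous (z hd ε) := by
  unfold z
  fun_prop

/-- the absolutely continuous measure `P(z(x)) dx` -/
noncomputable def nu (P : Polynomial ℂ) (ε : ℝ) : RadonMeasure d where
  base := volume
  locallyFinite := inferInstance
  density := fun x => P.eval (z hd ε x)
  locallyIntegrable := (P.continuous.comp (z_cont hd ε)).locallyIntegrable

/-- the atoms -/
noncomputable def pt (ε : ℝ) (j : ℕ) : E d := EuclideanSpace.single (i0 hd) ((j : ℝ) * ε)

theorem pt_coord {ε : ℝ} (hε : 0 < ε) (j : ℕ) : ⌊(pt hd ε j) (i0 hd) / ε⌋₊ = j := by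
  unfold pt
  rw [PiLp.single_apply, if_pos rfl, mul_div_assoc, div_self hε.ne', mul_one,
    Nat.floor_natCast]

theorem dens_meas (P : Polynomial ℂ) (ε : ℝ) :
    Measurable fun y : E d => P.coeff ⌊y (i0 hd) / ε⌋₊ := by
  have h1 : Measurable fun y : E d => ⌊y (i0 hd) / ε⌋₊ := by
    apply Measurable.nat_floor
    fun_prop
  exact (measurable_from_nat (f := P.coeff)).comp h1

instance finiteBase (P : Polynomial ℂ) (ε : ℝ) : IsFiniteMeasure
    (∑ j ∈ Finset.range (P.natDegree + 1), Measure.dirac (pt hd ε j)) := by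
  infer_instance

/-- the discrete measure `∑ P_j δ_{jε}` -/
noncomputable def nuhat (P : Polynomial ℂ) (ε : ℝ) : RadonMeasure d where
  base := ∑ j ∈ Finset.range (P.natDegree + 1), Measure.dirac (pt hd ε j)
  locallyFinite := inferInstance
  density := fun y => P.coeff ⌊y (i0 hd) / ε⌋₊
  locallyIntegrable := by
    apply Integrable.locallyIntegrable
    rw [integrable_finsetSum_measure]
    intro j _
    exact integrable_dirac enorm_lt_top

theorem nuhat_integral (P : Polynomial ℂ) {ε : ℝ} (hε : 0 < ε) (f : E d → ℂ) :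
    (nuhat hd P ε).integral f =
      ∑ j ∈ Finset.range (P.natDegree + 1), f (pt hd ε j) * P.coeff j := by
  unfold RadonMeasure.integral nuhat
  simp only
  rw [integral_finsetSum_measure]
  · refine Finset.sum_congr rfl fun j _ => ?_
    rw [integral_dirac, pt_coord hd hε]
  · intro j _
    exact integrable_dirac enorm_lt_top

theorem cc_integrable {f : E d → ℂ} (hf : IsCc f) : Integrable f :=
  hf.1.integrable_of_hasCompactSupport hf.2

theorem K2_integrable {g : E d → ℂ} (hg : g ∈ K2 d) : Integrable g := by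
  unfold K2 at hg
  induction hg using Submodule.span_induction with
  | mem g hg =>
    obtain ⟨f, h, hf, hh, rfl⟩ := hg
    exact (cc_integrable hf).integrable_convolution (ContinuousLinearMap.mul ℂ ℂ)
      (cc_integrable hh)
  | zero => exact integrable_zero _ _ _
  | add f h _ _ hf hh => exact hf.add hh
  | smul c f _ hf => exact hf.smul c

theorem z_pow_eq (ε : ℝ) (j : ℕ) (x : E d) :
    z hd ε x ^ j = cexp (2 * Real.pi * I * (inner ℝ (pt hd ε j) x : ℝ)) := by
  unfold z pt
  rw [← Complex.exp_nat_mul, EuclideanSpace.inner_single_left]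
  congr 1
  simp
  ring

theorem isFT (P : Polynomial ℂ) {ε : ℝ} (hε : 0 < ε) :
    IsFourierTransform (nu hd P ε) (nuhat hd P ε) := by
  intro g hg
  have hgi := K2_integrable hg
  constructor
  · unfold RadonMeasure.totalVariation nuhat
    simp only
    rw [integrable_withDensity_iff_integrable_smul₀']
    · rw [integrable_finsetSum_measure]
      intro j _
      exact integrable_dirac enorm_lt_top
    · exact (dens_meas hd P ε).enorm.aemeasurable
    · exact Eventually.of_forall fun x => enorm_lt_top
  · rw [nuhat_integral hd P hε]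
    unfold RadonMeasure.integral nu check
    simp only
    have e : ∀ x : E d, g x * P.eval (z hd ε x) = ∑ j ∈ Finset.range (P.natDegree + 1),
        (g x * cexp (2 * Real.pi * I * (inner ℝ (pt hd ε j) x : ℝ))) * P.coeff j := by
      intro x
      rw [Polynomial.eval_eq_sum_range, Finset.mul_sum]
      refine Finset.sum_congr rfl fun j _ => ?_
      rw [← z_pow_eq]
      ring
    simp_rw [e]
    rw [integral_finsetSum]
    · refine Finset.sum_congr rfl fun j _ => ?_
      rw [integral_mul_const]
    · intro j _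
      apply Integrable.mul_const
      refine hgi.mul_bdd (c := 1) ?_ ?_
      · apply Continuous.aestronglyMeasurable
        fun_prop
      · refine Eventually.of_forall fun x => ?_
        rw [show (2 * Real.pi * I * ((inner ℝ (pt hd ε j) x : ℝ) : ℂ)) =
          ((2 * Real.pi * inner ℝ (pt hd ε j) x : ℝ) : ℂ) * I by push_cast; ring,
          Complex.norm_exp_ofReal_mul_I]

/-- the polynomial `1 - (1 - (1 - X)^L)^M` -/
noncomputable def pol (L M : ℕ) : Polynomial ℂ :=
  1 - (1 - (1 - Polynomial.X) ^ L) ^ M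

theorem pol_coeff_zero (L M : ℕ) (hM : 1 ≤ M) : (pol L M).coeff 0 = 1 := by
  rw [Polynomial.coeff_zero_eq_eval_zero, pol]
  simp [Nat.one_le_iff_ne_zero.1 hM]

theorem pol_coeff_small (L M j : ℕ) (hj : 1 ≤ j) (hjM : j < M) : (pol L M).coeff j = 0 := by
  have h1 : Polynomial.X ∣ (1 - (1 - Polynomial.X) ^ L : Polynomial ℂ) := by
    rw [Polynomial.X_dvd_iff, Polynomial.coeff_zero_eq_eval_zero]
    simp
  have h2 := Polynomial.X_pow_dvd_iff.1 (pow_dvd_pow_of_dvd h1 M) j hjM
  rw [pol, Polynomial.coeff_sub, h2, Polynomial.coeff_one, if_neg (by omega), sub_zero]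

theorem exists_L (M : ℕ) (δ : ℝ) (hδ : 0 < δ) : ∃ L : ℕ,
    ∀ w : ℂ, ‖1 - w‖ ≤ 4 / 5 → ‖(pol L M).eval w‖ ≤ δ := by
  have hc : Continuous fun u : ℂ => 1 - (1 - u) ^ M := by fun_prop
  have h0 : Tendsto (fun u : ℂ => 1 - (1 - u) ^ M) (𝓝 0) (𝓝 0) := by
    have := hc.tendsto 0
    simpa using this
  rw [Metric.tendsto_nhds_nhds] at h0
  obtain ⟨η, hη, h⟩ := h0 δ hδ
  obtain ⟨L, hL⟩ := exists_pow_lt_of_lt_one hη (by norm_num : (4 / 5 : ℝ) < 1)
  refine ⟨L, fun w hw => ?_⟩
  have h1 : dist ((1 - w) ^ L) 0 < η := by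
    rw [dist_zero_right, norm_pow]
    exact (pow_le_pow_left₀ (norm_nonneg _) hw L).trans_lt hL
  have h2 := (h h1).le
  rw [dist_zero_right] at h2
  simpa [pol] using h2

theorem z_near (n : ℕ) (x : E d) (hx : |x (i0 hd)| ≤ n + 1) :
    ‖1 - z hd (1 / (8 * (n + 1))) x‖ ≤ 4 / 5 := by
  have h1 := Real.norm_exp_I_mul_ofReal_sub_one_le
    (x := 2 * Real.pi * (1 / (8 * ((n : ℝ) + 1)) * x (i0 hd)))
  have h2 : z hd (1 / (8 * (n + 1))) x =
      cexp (I * ((2 * Real.pi * (1 / (8 * ((n : ℝ) + 1)) * x (i0 hd)) : ℝ) : ℂ)) := by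
    unfold z
    congr 1
    push_cast
    ring
  rw [norm_sub_rev, h2]
  refine h1.trans ?_
  rw [Real.norm_eq_abs, abs_mul (2 * Real.pi), abs_of_pos (by positivity : (0 : ℝ) < 2 * Real.pi),
    abs_mul, abs_of_pos (by positivity : (0 : ℝ) < 1 / (8 * ((n : ℝ) + 1)))]
  have h3 : 1 / (8 * ((n : ℝ) + 1)) * |x (i0 hd)| ≤ 1 / 8 := by
    calc 1 / (8 * ((n : ℝ) + 1)) * |x (i0 hd)| ≤ 1 / (8 * ((n : ℝ) + 1)) * (n + 1) := by
          gcongr
      _ = 1 / 8 := by field_simp
  have h4 := Real.pi_lt_d2
  have h5 := Real.pi_pos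
  nlinarith

end construction

/-- **Vaguely null measures with non-null Fourier transforms exist.** For every `d ≥ 1` there are
measures `ν_n` on `ℝ^d` with Fourier transforms `νhat_n` such that, vaguely, `ν_n → 0` and
`νhat_n → μ`, where `μ ≠ 0`; indeed one can have `μ = δ_0`. -/
theorem result (d : ℕ) (hd : 1 ≤ d) :
    ∃ (ν νhat : ℕ → RadonMeasure d) (μ : RadonMeasure d),
      (∀ n, IsFourierTransform (ν n) (νhat n)) ∧
      VagueTendsto ν (zeroMeasure d) ∧ VagueTendsto νhat μ ∧
      μ = diracMeasure d ∧ ∃ f : E d → ℂ, IsCc f ∧ μ.integral f ≠ 0 := by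
  choose L hL using fun n : ℕ => exists_L (8 * (n + 1) ^ 2) (1 / (n + 1)) (by positivity)
  have hε : ∀ n : ℕ, (0 : ℝ) < 1 / (8 * (n + 1)) := fun n => by positivity
  refine ⟨fun n => nu hd (pol (L n) (8 * (n + 1) ^ 2)) (1 / (8 * (n + 1))),
    fun n => nuhat hd (pol (L n) (8 * (n + 1) ^ 2)) (1 / (8 * (n + 1))), diracMeasure d,
    fun n => isFT hd _ (hε n), ?_, ?_, rfl, ?_⟩
  · intro f hf
    have h0 : (zeroMeasure d).integral f = 0 := by
      simp [RadonMeasure.integral, zeroMeasure]
    rw [h0]
    obtain ⟨R, hR⟩ := hf.2.isCompact.isBounded.exists_norm_le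
    have hlim : Tendsto (fun n : ℕ => (∫ x, ‖f x‖) * (1 / ((n : ℝ) + 1))) atTop (𝓝 0) := by
      have := (tendsto_one_div_add_atTop_nhds_zero_nat (𝕜 := ℝ)).const_mul (∫ x, ‖f x‖)
      simpa using this
    refine squeeze_zero_norm' ?_ hlim
    filter_upwards [eventually_ge_atTop ⌈R⌉₊] with n hn
    unfold RadonMeasure.integral nu
    simp only
    refine (norm_integral_le_integral_norm _).trans ?_
    rw [← integral_mul_const]
    refine integral_mono_of_nonneg (Eventually.of_forall fun x => norm_nonneg _)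
      ((cc_integrable hf).norm.mul_const _) (Eventually.of_forall fun x => ?_)
    simp only
    rw [norm_mul]
    by_cases hx : f x = 0
    · simp [hx]
    · have hx1 : x ∈ tsupport f := subset_tsupport f hx
      have hx2 := hR x hx1
      have hx3 : |x (i0 hd)| ≤ n + 1 := by
        have h5 : ‖x (i0 hd)‖ ≤ ‖x‖ := PiLp.norm_apply_le x (i0 hd)
        rw [Real.norm_eq_abs] at h5
        have h6 : R ≤ n := (Nat.le_ceil R).trans (by exact_mod_cast hn)
        linarith
      have := hL n _ (z_near hd n x hx3)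
      gcongr
  · intro f hf
    have h0 : (diracMeasure d).integral f = f 0 := by
      unfold RadonMeasure.integral diracMeasure
      simp
    rw [h0]
    obtain ⟨R, hR⟩ := hf.2.isCompact.isBounded.exists_norm_le
    refine tendsto_const_nhds.congr' ?_
    filter_upwards [eventually_ge_atTop ⌈R⌉₊] with n hn
    rw [nuhat_integral hd _ (hε n)]
    rw [Finset.sum_eq_single 0]
    · rw [pol_coeff_zero _ _ (by nlinarith [Nat.zero_le n]), mul_one]
      congr 1
      unfold pt
      ext i
      simp
    · intro j _ hj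
      by_cases hjM : j < 8 * (n + 1) ^ 2
      · rw [pol_coeff_small _ _ j (by omega) hjM, mul_zero]
      · have : f (pt hd (1 / (8 * ((n : ℝ) + 1))) j) = 0 := by
          by_contra hne
          have hx2 := hR _ (subset_tsupport f hne)
          have h5 : ‖pt hd (1 / (8 * ((n : ℝ) + 1))) j‖ = (j : ℝ) * (1 / (8 * (n + 1))) := by
            unfold pt
            rw [PiLp.norm_single, Real.norm_eq_abs, abs_of_nonneg (by positivity)]
          rw [h5] at hx2
          have h6 : R ≤ n := (Nat.le_ceil R).trans (by exact_mod_cast hn)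
          have h7 : ((8 * (n + 1) ^ 2 : ℕ) : ℝ) ≤ j := by exact_mod_cast not_lt.1 hjM
          have h8 : ((n : ℝ) + 1) ≤ (j : ℝ) * (1 / (8 * (n + 1))) := by
            push_cast at h7
            rw [mul_one_div, le_div_iff₀ (by positivity)]
            nlinarith
          linarith
        rw [this, zero_mul]
    · intro h
      simp at h
  · refine ⟨fun x => ((max 0 (1 - ‖x‖) : ℝ) : ℂ), ⟨by fun_prop, ?_⟩, ?_⟩
    · refine HasCompactSupport.intro (isCompact_closedBall (0 : E d) 1) fun x hx => ?_
      rw [Metric.mem_closedBall, dist_zero_right, not_le] at hx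
      have : max 0 (1 - ‖x‖) = 0 := max_eq_left (by linarith)
      rw [this, Complex.ofReal_zero]
    · unfold RadonMeasure.integral diracMeasure
      simp


end Pool.Agent.Results.MP_831e37_an.VaguelyNull
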